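import Pool.Agent.Helper58.SF.StN

/-!
# Project SF, module TGD: data of a cut of a cell of the plane
-/

set_option autoImplicit false

namespace Pool.Agent.Helper33.SF

open Set Topology Pool.Agent.Helper13.TR Pool.Agent.Helper58.SF
open Pool.Agent.Helper13.TW (IsArc Spl IsSCC dch Chn Splt GT CSy MP Val LR MCell StARB StARX StSCL
  StUAR StINF StLIN StAC1 StSDM StLRC StBF StMD1 StMD2 StMD3)

private theorem arc_joined {X : Type} [TopologicalSpace X] {D : Set X} {p q : X}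
    (h : IsArc D p q) : JoinedIn D p q := by
  obtain ⟨γ, -, hr⟩ := h
  exact ⟨γ, fun t => hr ▸ mem_range_self t⟩

private theorem arc_compact {X : Type} [TopologicalSpace X] {D : Set X} {p q : X}
    (h : IsArc D p q) : IsCompact D := by
  obtain ⟨γ, -, hr⟩ := h
  rw [← hr]
  exact isCompact_range γ.continuous

private theorem arc_right {X : Type} [TopologicalSpace X] {D : Set X} {p q : X}
    (h : IsArc D p q) : q ∈ D := by
  obtain ⟨γ, -, hr⟩ := h
  rw [← hr]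
  exact ⟨1, γ.target⟩

private theorem param {P : Set ℂ} {p q : ℂ} (h : IsArc P p q) :
    ∃ g : ℝ → ℂ, Continuous g ∧ InjOn g (Icc 0 1) ∧ g '' Icc 0 1 = P ∧ g 0 = p ∧ g 1 = q := by
  obtain ⟨γ, hi, hr⟩ := h
  refine ⟨γ.extend, γ.continuous_extend, ?_, ?_, γ.extend_zero, γ.extend_one⟩
  · intro s hs t ht hst
    rw [γ.extend_apply hs, γ.extend_apply ht] at hst
    exact congrArg Subtype.val (hi hst)
  · rw [← hr]
    ext z
    constructor
    · rintro ⟨t, ht, rfl⟩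
      rw [γ.extend_apply ht]
      exact mem_range_self _
    · rintro ⟨t, rfl⟩
      exact ⟨t, t.2, by rw [γ.extend_apply t.2]⟩

private theorem sub_arc {g : ℝ → ℂ} (hg : Continuous g) (hi : InjOn g (Icc 0 1)) {a b : ℝ}
    (ha : 0 ≤ a) (hab : a < b) (hb : b ≤ 1) : IsArc (g '' Icc a b) (g a) (g b) := by
  have hba : 0 < b - a := sub_pos.2 hab
  refine ⟨⟨⟨fun t : unitInterval => g (a + t * (b - a)), by fun_prop⟩, by simp, by simp⟩, ?_, ?_⟩
  · intro s t hst
    have hmem : ∀ s : unitInterval, a + (s : ℝ) * (b - a) ∈ Icc (0 : ℝ) 1 := by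
      intro s
      have h1 : 0 ≤ (s : ℝ) * (b - a) := mul_nonneg s.2.1 hba.le
      have h2 : (s : ℝ) * (b - a) ≤ 1 * (b - a) := mul_le_mul_of_nonneg_right s.2.2 hba.le
      exact ⟨by linarith, by linarith⟩
    have h1 := hi (hmem s) (hmem t) hst
    have h2 : (s : ℝ) * (b - a) = t * (b - a) := by linarith
    exact Subtype.ext (mul_right_cancel₀ hba.ne' h2)
  · ext z
    constructor
    · rintro ⟨t, rfl⟩
      have h1 : 0 ≤ (t : ℝ) * (b - a) := mul_nonneg t.2.1 hba.le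
      have h2 : (t : ℝ) * (b - a) ≤ 1 * (b - a) := mul_le_mul_of_nonneg_right t.2.2 hba.le
      exact ⟨a + t * (b - a), ⟨by linarith, by linarith⟩, rfl⟩
    · rintro ⟨x, hx, rfl⟩
      refine ⟨⟨(x - a) / (b - a), div_nonneg (by linarith [hx.1]) hba.le,
        (div_le_one hba).2 (by linarith [hx.2])⟩, ?_⟩
      show g (a + (x - a) / (b - a) * (b - a)) = g x
      rw [div_mul_cancel₀ _ hba.ne']
      congr 1
      ring

/-- The thickening of a preconnected set is preconnected. -/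
private theorem pre_thick {C : Set ℂ} (hC : IsPreconnected C) (κ : ℝ) (hκ : 0 < κ) :
    IsPreconnected (Metric.thickening κ C) := by
  rcases C.eq_empty_or_nonempty with rfl | ⟨x₀, hx₀⟩
  · rw [Metric.thickening_empty]
    exact isPreconnected_empty
  · have h1 : Metric.thickening κ C = ⋃ x : C, (C ∪ Metric.ball (x : ℂ) κ) := by
      ext z
      rw [Metric.mem_thickening_iff, mem_iUnion]
      constructor
      · rintro ⟨x, hx, hz⟩
        exact ⟨⟨x, hx⟩, Or.inr hz⟩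
      · rintro ⟨x, hz | hz⟩
        · exact ⟨z, hz, by rw [dist_self]; exact hκ⟩
        · exact ⟨x, x.2, hz⟩
    rw [h1]
    refine isPreconnected_iUnion ⟨x₀, mem_iInter.2 fun x => Or.inl hx₀⟩ fun x => ?_
    exact hC.union (x : ℂ) x.2 (Metric.mem_ball_self hκ) (convex_ball _ _).isPreconnected

/-- Points of the curve near an end piece are joined to the end point. -/
private theorem end_piece (hUAR : StUAR) {J : Set ℂ} (hJ : IsSCC J) (hJc : IsCompact J)
    {B : Set ℂ} (hB : IsClosed B) {p : ℂ} (hp : p ∈ J) (hBJ : ∀ z ∈ B, z ∈ J → z = p) {ε : ℝ}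
    (hε : 0 < ε) : ∃ d : ℝ, 0 < d ∧ ∀ v ∈ J, v ∈ Metric.thickening d B →
      JoinedIn (J ∩ Metric.ball p ε) v p := by
  obtain ⟨ρ, hρ, hU⟩ := hUAR ℂ J hJ ε hε
  have hK : IsCompact (J \ Metric.ball p ρ) := hJc.diff Metric.isOpen_ball
  have hd : Disjoint (J \ Metric.ball p ρ) B := by
    rw [Set.disjoint_left]
    rintro z ⟨hz, hz'⟩ hzB
    apply hz'
    rw [hBJ z hzB hz]
    exact Metric.mem_ball_self hρ
  obtain ⟨d, hd0, hdd⟩ := hd.exists_thickenings hK hB
  refine ⟨d, hd0, fun v hv hvB => ?_⟩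
  have hvp : dist v p < ρ := by
    by_contra hcon
    exact Set.disjoint_left.1 hdd (Metric.self_subset_thickening hd0 _ ⟨hv, hcon⟩) hvB
  by_cases hvp' : v = p
  · rw [hvp']
    exact JoinedIn.refl ⟨hp, Metric.mem_ball_self hε⟩
  · obtain ⟨D₁, D₂, hS, hdiam⟩ := hU v hv p hp hvp' hvp
    refine (arc_joined hS.1).mono fun z hz => ⟨?_, ?_⟩
    · rw [← hS.2.2.2]
      exact Or.inl hz
    · exact (Metric.dist_le_diam_of_mem (arc_compact hS.1).isBounded hz
        (arc_right hS.1)).trans_lt hdiam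

/-- Eventually the thickenings of disjoint compact sets are disjoint. -/
private theorem ev_disj {A B : Set ℂ} (hA : IsCompact A) (hB : IsCompact B) (h : Disjoint A B) :
    ∀ᶠ δ in 𝓝[>] (0 : ℝ), Disjoint (Metric.thickening δ A) (Metric.thickening δ B) := by
  obtain ⟨d, hd0, hdd⟩ := h.exists_thickenings hA hB.isClosed
  filter_upwards [Ioo_mem_nhdsGT hd0] with δ hδ
  exact hdd.mono (Metric.thickening_mono hδ.2.le _) (Metric.thickening_mono hδ.2.le _)

theorem hTGD : StARB → StUAR → StMD2 → StTGD := by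
  intro _hARB hUAR _hMD2 E' J' p' q' D₁' D₂' P' E₁' E₂' hM hSp m' hm' η₀ hη₀
  obtain ⟨hSpl, hArc, hPJ, hE, hEE, -, -⟩ := hSp
  obtain ⟨h, hhE, hhJ⟩ := hM
  -- the curve and the interior
  have hJc : IsCompact J' := by
    rw [← hhJ]
    exact (isCompact_sphere 0 1).image h.continuous
  have hSCC : IsSCC J' := ⟨p', q', D₁', D₂', hSpl⟩
  have hint : E' \ J' = h '' Metric.ball 0 1 := by
    rw [← hhE, ← hhJ, ← Set.image_sdiff h.injective, Metric.closedBall_sdiff_sphere]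
  have hopen : IsOpen (E' \ J') := by
    rw [hint]
    exact h.isOpenMap _ Metric.isOpen_ball
  have hEc : IsClosed E' := by
    rw [← hhE]
    exact h.isClosedMap _ Metric.isClosed_closedBall
  have hpc : IsPathConnected (E' \ J') := by
    rw [hint]
    exact ((convex_ball (0 : ℂ) 1).isPathConnected ⟨0, Metric.mem_ball_self one_pos⟩).image
      h.continuous
  have hPE : P' ⊆ E' := by
    rw [← hEE, ← hE]
    exact fun z hz => Or.inl hz.1
  -- the parametrization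
  obtain ⟨g, hg, hgi, hgP, hg0, hg1⟩ := param hArc
  have hpJ : p' ∈ J' := by
    have : p' ∈ P' ∩ J' := by rw [hPJ]; exact Or.inl rfl
    exact this.2
  have hqJ : q' ∈ J' := by
    have : q' ∈ P' ∩ J' := by rw [hPJ]; exact Or.inr rfl
    exact this.2
  have hgP' : ∀ t ∈ Icc (0 : ℝ) 1, g t ∈ P' := fun t ht => hgP ▸ mem_image_of_mem g ht
  have hgJ : ∀ t ∈ Icc (0 : ℝ) 1, g t ∈ J' → t = 0 ∨ t = 1 := by
    intro t ht htJ
    have h1 : g t ∈ P' ∩ J' := ⟨hgP' t ht, htJ⟩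
    rw [hPJ] at h1
    rcases h1 with h1 | h1
    · left
      exact hgi ht ⟨le_rfl, zero_le_one⟩ (by rw [h1, hg0])
    · right
      exact hgi ht ⟨zero_le_one, le_rfl⟩ (by rw [h1, hg1])
  have hgI : ∀ t : ℝ, 0 < t → t < 1 → g t ∈ E' \ J' := by
    intro t h0 h1
    refine ⟨hPE (hgP' t ⟨h0.le, h1.le⟩), fun hJ => ?_⟩
    rcases hgJ t ⟨h0.le, h1.le⟩ hJ with h2 | h2 <;> linarith
  -- the number of pieces
  obtain ⟨d₀, hd₀, hunif⟩ := Metric.uniformContinuousOn_iff.1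
    (isCompact_Icc.uniformContinuousOn_of_continuous (hg.continuousOn (s := Icc (0 : ℝ) 1)))
    (η₀ / 8) (by positivity)
  obtain ⟨N, hN⟩ := exists_nat_gt (1 / d₀)
  obtain ⟨n, hn⟩ : ∃ n, n = N + 3 := ⟨_, rfl⟩
  have hn3 : 3 ≤ n := by omega
  have hnR : (3 : ℝ) ≤ n := by exact_mod_cast hn3
  have hn0 : (0 : ℝ) < n := by linarith
  have hnd : 1 / (n : ℝ) < d₀ := by
    have h1 : (N : ℝ) ≤ n := by
      rw [hn]
      push_cast
      linarith
    rw [div_lt_iff₀ hn0]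
    rw [div_lt_iff₀ hd₀] at hN
    nlinarith
  -- arithmetic of the division points
  have hdiv : ∀ i : ℕ, i ≤ n → (i : ℝ) / n ∈ Icc (0 : ℝ) 1 := by
    intro i hi
    exact ⟨by positivity, (div_le_one hn0).2 (by exact_mod_cast hi)⟩
  have hmono : ∀ i j : ℕ, i ≤ j → (i : ℝ) / n ≤ (j : ℝ) / n := by
    intro i j hij
    exact div_le_div_of_nonneg_right (by exact_mod_cast hij) hn0.le
  have hmono' : ∀ i j : ℕ, i < j → (i : ℝ) / n < (j : ℝ) / n := by
    intro i j hij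
    exact div_lt_div_of_pos_right (by exact_mod_cast hij) hn0
  obtain ⟨y, hy⟩ : ∃ y : ℕ → ℂ, y = fun i : ℕ => g ((i : ℝ) / n) := ⟨_, rfl⟩
  obtain ⟨β, hβ⟩ : ∃ β : ℕ → Set ℂ, β = fun i : ℕ => g '' Icc ((i : ℝ) / n) (((i + 1 : ℕ) : ℝ) / n) :=
    ⟨_, rfl⟩
  have hy' : ∀ i, y i = g ((i : ℝ) / n) := fun i => by rw [hy]
  have hβ' : ∀ i, β i = g '' Icc ((i : ℝ) / n) (((i + 1 : ℕ) : ℝ) / n) := fun i => by rw [hβ]
  have hsub : ∀ i : ℕ, i < n → Icc ((i : ℝ) / n) (((i + 1 : ℕ) : ℝ) / n) ⊆ Icc (0 : ℝ) 1 := by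
    intro i hi t ht
    exact ⟨(hdiv i hi.le).1.trans ht.1, ht.2.trans (hdiv (i + 1) hi).2⟩
  have harc : ∀ i : ℕ, i < n → IsArc (β i) (y i) (y (i + 1)) := by
    intro i hi
    rw [hβ', hy', hy']
    exact sub_arc hg hgi (hdiv i hi.le).1 (hmono' i (i + 1) (Nat.lt_succ_self i)) (hdiv (i + 1) hi).2
  have hβc : ∀ i : ℕ, IsCompact (β i) := by
    intro i
    rw [hβ']
    exact isCompact_Icc.image hg
  have hβP : ∀ i : ℕ, i < n → β i ⊆ P' := by
    intro i hi
    rw [hβ', ← hgP]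
    exact image_mono (hsub i hi)
  have hdiam : ∀ i : ℕ, i < n → Metric.diam (β i) < η₀ / 4 := by
    intro i hi
    refine (Metric.diam_le_of_forall_dist_le (C := η₀ / 8) (by positivity) ?_).trans_lt
      (by linarith)
    rw [hβ']
    rintro _ ⟨s, hs, rfl⟩ _ ⟨t, ht, rfl⟩
    have e : (((i + 1 : ℕ) : ℝ)) / n = (i : ℝ) / n + 1 / n := by
      push_cast
      rw [add_div]
    rw [e] at hs ht
    refine (hunif s (hsub i hi (e ▸ hs)) t (hsub i hi (e ▸ ht)) ?_).le
    rw [Real.dist_eq, abs_lt]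
    exact ⟨by linarith [hs.1, hs.2, ht.1, ht.2], by linarith [hs.1, hs.2, ht.1, ht.2]⟩
  have hUn : (⋃ i ∈ Finset.range n, β i) = P' := by
    apply Subset.antisymm
    · intro z hz
      simp only [mem_iUnion, Finset.mem_range] at hz
      obtain ⟨i, hi, hz⟩ := hz
      exact hβP i hi hz
    · rw [← hgP]
      rintro _ ⟨t, ht, rfl⟩
      simp only [mem_iUnion, Finset.mem_range]
      rcases eq_or_lt_of_le ht.2 with h1 | h1
      · refine ⟨n - 1, by omega, ?_⟩
        rw [hβ']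
        refine ⟨t, ⟨?_, ?_⟩, rfl⟩
        · rw [h1]
          exact (hdiv (n - 1) (by omega)).2
        · have e : n - 1 + 1 = n := by omega
          rw [e, h1, div_self hn0.ne']
      · have h2 : 0 ≤ t * n := mul_nonneg ht.1 hn0.le
        refine ⟨⌊t * n⌋₊, ?_, ?_⟩
        · rw [Nat.floor_lt h2]
          nlinarith
        · rw [hβ']
          refine ⟨t, ⟨?_, ?_⟩, rfl⟩
          · rw [div_le_iff₀ hn0]
            exact Nat.floor_le h2
          · rw [le_div_iff₀ hn0]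
            push_cast
            exact (Nat.lt_floor_add_one _).le
  have hcap : ∀ i : ℕ, i + 1 < n → β i ∩ β (i + 1) = {y (i + 1)} := by
    intro i hi
    rw [hβ', hβ', hy']
    apply Subset.antisymm
    · rintro _ ⟨⟨s, hs, rfl⟩, ⟨t, ht, hst⟩⟩
      have h1 : t = s := hgi (hsub (i + 1) hi ht) (hsub i (by omega) hs) hst
      subst h1
      rw [mem_singleton_iff]
      congr 1
      exact le_antisymm hs.2 ht.1
    · rintro z hz
      rw [mem_singleton_iff] at hz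
      rw [hz]
      exact ⟨⟨_, ⟨hmono _ _ (Nat.le_succ i), le_rfl⟩, rfl⟩,
        ⟨_, ⟨le_rfl, hmono _ _ (Nat.le_succ (i + 1))⟩, rfl⟩⟩
  have hdisj : ∀ i j : ℕ, i + 2 ≤ j → j < n → Disjoint (β i) (β j) := by
    intro i j hij hj
    rw [Set.disjoint_left, hβ', hβ']
    rintro _ ⟨s, hs, rfl⟩ ⟨t, ht, hst⟩
    have h1 : t = s := hgi (hsub j hj ht) (hsub i (by omega) hs) hst
    subst h1
    have h2 := hmono' (i + 1) j (by omega)
    linarith [hs.2, ht.1]
  -- the connected set `C'`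
  have hy1 : y 1 ∈ E' \ J' := by
    rw [hy']
    refine hgI _ (by positivity) ?_
    rw [div_lt_one hn0]
    push_cast
    linarith
  obtain ⟨c, hc⟩ := hpc.joinedIn m' hm' (y 1) hy1
  obtain ⟨C₀, hC₀⟩ : ∃ C₀ : Set ℂ, C₀ = range c ∪ g '' Icc (((1 : ℕ) : ℝ) / n) (((n - 1 : ℕ) : ℝ) / n) :=
    ⟨_, rfl⟩
  have h1n : ((1 : ℕ) : ℝ) / n ≤ ((n - 1 : ℕ) : ℝ) / n := hmono 1 (n - 1) (by omega)
  have hC₀c : IsCompact C₀ := by
    rw [hC₀]
    exact (isCompact_range c.continuous).union (isCompact_Icc.image hg)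
  have hC₀p : IsPreconnected C₀ := by
    rw [hC₀]
    refine IsPreconnected.union (y 1) ⟨1, c.target⟩ ?_ (isPreconnected_range c.continuous)
      (isPreconnected_Icc.image g hg.continuousOn)
    rw [hy']
    exact ⟨_, ⟨le_rfl, h1n⟩, rfl⟩
  have hC₀I : C₀ ⊆ E' \ J' := by
    rw [hC₀]
    rintro z (⟨t, rfl⟩ | ⟨t, ht, rfl⟩)
    · exact hc t
    · refine hgI t ?_ ?_
      · have h2 : (0 : ℝ) < ((1 : ℕ) : ℝ) / n := by positivity
        linarith [ht.1]
      · have h2 : ((n - 1 : ℕ) : ℝ) / n < (n : ℝ) / n := hmono' (n - 1) n (by omega)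
        rw [div_self hn0.ne'] at h2
        linarith [ht.2]
  have hCJ : Disjoint C₀ J' := by
    rw [Set.disjoint_left]
    exact fun z hz => (hC₀I hz).2
  obtain ⟨κ, hκ, hκd⟩ := hCJ.exists_thickenings hC₀c hJc.isClosed
  have hCu : ∀ c ∈ Metric.thickening κ C₀, ∀ u ∈ J', κ ≤ dist c u := by
    intro c hc u hu
    by_contra hcon
    exact Set.disjoint_left.1 hκd hc (Metric.mem_thickening_iff.2 ⟨u, hu, not_le.1 hcon⟩)
  have hCI : Metric.thickening κ C₀ ⊆ E' \ J' := by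
    intro z hz
    obtain ⟨x, hx, hzx⟩ := Metric.mem_thickening_iff.1 hz
    have hb : Metric.ball x κ ⊆ (E' \ J') ∪ E'ᶜ := by
      intro w hw
      have hwJ : w ∉ J' := fun hwJ => by
        have h1 := hCu w (Metric.mem_thickening_iff.2 ⟨x, hx, hw⟩) w hwJ
        rw [dist_self] at h1
        linarith
      by_cases hwE : w ∈ E'
      · exact Or.inl ⟨hwE, hwJ⟩
      · exact Or.inr hwE
    exact IsPreconnected.subset_left_of_subset_union hopen hEc.isOpen_compl
      (Set.disjoint_left.2 fun w hw hw' => hw' hw.1) hb ⟨x, Metric.mem_ball_self hκ, hC₀I hx⟩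
      (convex_ball x κ).isPreconnected hzx
  -- the number `δ`
  have hev : ∀ᶠ δ in 𝓝[>] (0 : ℝ), ∀ t ∈ Finset.range n ×ˢ Finset.range n, t.1 + 2 ≤ t.2 →
      Disjoint (Metric.thickening δ (β t.1)) (Metric.thickening δ (β t.2)) := by
    rw [Finset.eventually_all]
    rintro ⟨i, j⟩ ht
    rw [Finset.mem_product, Finset.mem_range, Finset.mem_range] at ht
    by_cases hij : i + 2 ≤ j
    · filter_upwards [ev_disj (hβc i) (hβc j) (hdisj i j hij ht.2)] with δ hδ _
      exact hδ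
    · exact Filter.Eventually.of_forall fun δ h => absurd h hij
  have hev1 : ∀ᶠ δ in 𝓝[>] (0 : ℝ), δ ∈ Ioo 0 κ := Ioo_mem_nhdsGT hκ
  have hev2 : ∀ᶠ δ in 𝓝[>] (0 : ℝ), δ ∈ Ioo 0 (η₀ / 4) := Ioo_mem_nhdsGT (by positivity)
  obtain ⟨δ, hδd, ⟨hδ0, hδκ⟩, -, hδη⟩ := (hev.and (hev1.and hev2)).exists
  -- the number `δ₂`
  obtain ⟨d₁, hd₁, hj₁⟩ := end_piece hUAR hSCC hJc (hβc 0).isClosed hpJ (by
    intro z hz hzJ
    rw [hβ'] at hz
    obtain ⟨t, ht, rfl⟩ := hz
    rcases hgJ t (hsub 0 (by omega) ht) hzJ with h1 | h1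
    · rw [h1, hg0]
    · exfalso
      have h2 := ht.2
      rw [h1, le_div_iff₀ hn0] at h2
      push_cast at h2
      linarith) (show (0 : ℝ) < δ / 4 by positivity)
  obtain ⟨d₂, hd₂, hj₂⟩ := end_piece hUAR hSCC hJc (hβc (n - 1)).isClosed hqJ (by
    intro z hz hzJ
    rw [hβ'] at hz
    obtain ⟨t, ht, rfl⟩ := hz
    rcases hgJ t (hsub (n - 1) (by omega) ht) hzJ with h1 | h1
    · exfalso
      have h2 := ht.1
      rw [h1] at h2
      have h3 := hmono' 0 (n - 1) (by omega)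
      rw [Nat.cast_zero, zero_div] at h3
      linarith
    · rw [h1, hg1]) (show (0 : ℝ) < δ / 4 by positivity)
  obtain ⟨δ₂, hδ₂⟩ : ∃ δ₂ : ℝ, δ₂ = min (min d₁ d₂) δ / 4 := ⟨_, rfl⟩
  have hm0 : 0 < min (min d₁ d₂) δ := lt_min (lt_min hd₁ hd₂) hδ0
  have hδ₂0 : 0 < δ₂ := by
    rw [hδ₂]
    positivity
  have hδ₂δ : δ₂ ≤ δ / 4 := by
    rw [hδ₂]
    have := min_le_right (min d₁ d₂) δ
    linarith
  have hδ₂1 : 2 * δ₂ ≤ d₁ := by
    rw [hδ₂]
    have := (min_le_left (min d₁ d₂) δ).trans (min_le_left d₁ d₂)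
    linarith
  have hδ₂2 : 2 * δ₂ ≤ d₂ := by
    rw [hδ₂]
    have := (min_le_left (min d₁ d₂) δ).trans (min_le_right d₁ d₂)
    linarith
  refine ⟨n, y, β, Metric.thickening κ C₀, κ, δ, δ₂, hn3, hκ, hδ0, hδη.le, hδ₂0, hδ₂δ, ?_, ?_, ?_,
    hUn, hcap, ?_, pre_thick hC₀p κ hκ, hCI, ?_, hCu, ?_, ?_, ?_, ?_⟩
  · rw [hy', Nat.cast_zero, zero_div, hg0]
  · rw [hy', div_self hn0.ne', hg1]
  · intro i hi
    refine ⟨harc i hi, hdiam i hi, ?_, hβP i hi⟩
    rw [hβ']
    exact isPreconnected_Icc.image g hg.continuousOn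
  · intro i j hij hj
    exact hδd (i, j) (Finset.mem_product.2 ⟨Finset.mem_range.2 (by omega),
      Finset.mem_range.2 hj⟩) hij
  · apply Metric.self_subset_thickening hκ
    rw [hC₀]
    exact Or.inl ⟨0, c.source⟩
  · intro i hi hin
    apply Metric.self_subset_thickening hκ
    rw [hC₀]
    exact Or.inr ⟨_, ⟨hmono 1 i hi, hmono i (n - 1) (by omega)⟩, (hy' i).symm⟩
  · intro i hi hin
    refine (Metric.thickening_mono hδκ.le _).trans (Metric.thickening_subset_of_subset κ ?_)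
    rw [hC₀, hβ']
    refine Subset.trans (image_mono ?_) subset_union_right
    exact Icc_subset_Icc (hmono 1 i hi) (hmono (i + 1) (n - 1) (by omega))
  · intro v hv hvt
    exact hj₁ v hv (Metric.thickening_mono hδ₂1 _ hvt)
  · intro v hv hvt
    exact hj₂ v hv (Metric.thickening_mono hδ₂2 _ hvt)

end Pool.Agent.Helper33.SF
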